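import Pool.Agent.H39.Newt2.Stmts
import Pool.Agent.H75.Mono.RB

/-!
# Project NEWTON2, module MEM: membership in `RS`
-/

set_option autoImplicit false

namespace Pool.Newt2

open MvPolynomial Pool.Agent.H39.MonoR Pool.Agent.H75.Mono Pool.Newt

namespace MEM

theorem ev_T {R : Type*} [CommRing R] (x : Rˣ) (n : ℤ) :
    ev x (LaurentPolynomial.T n) = ((x ^ n : Rˣ) : R) := by
  unfold ev
  exact LaurentPolynomial.eval₂_T _ _ _

theorem map_dP (k : Type) [Field k] [Algebra k ℂ] (W : Multiset (ℕ × ℕ)) :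
    PowerSeries.map (ev (Lu k)) (dP W) =
      ((W.map fun p : ℕ × ℕ => ((-(p.1 : ℤ), p.2) : ℤ × ℕ)).map (den' (Lu k))).prod := by
  unfold dP
  rw [map_multiset_prod, Multiset.map_map, Multiset.map_map]
  congr 1
  refine Multiset.map_congr rfl fun p _ => ?_
  simp only [Function.comp_apply, den', map_sub, map_one, map_mul, map_pow, PowerSeries.map_C,
    PowerSeries.map_X, ev_T]

end MEM

/-- MEM -/
theorem sMem : SMem := by
  intro k _ _ S hS Φ W N0 hW h
  refine RatF.mem_RS (T := Unit) (F := fun _ => PowerSeries.map (ev (Lu k)) Φ) hS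
    ⟨W.map fun p : ℕ × ℕ => ((-(p.1 : ℤ), p.2) : ℤ × ℕ), ?_, N0, ?_⟩ ()
  · intro p hp
    obtain ⟨q, hq, rfl⟩ := Multiset.mem_map.mp hp
    exact hW q hq
  · intro _ n hn
    rw [← MEM.map_dP, ← map_mul, PowerSeries.coeff_map, h n hn, map_zero]

end Pool.Newt2
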